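import Pool.Agent.H.MP_9e990c_al.h30.Der

set_option autoImplicit false
set_option linter.unusedSectionVars false
set_option linter.style.longLine false

/-!
# The kernel of the derivatives in some of the variables
-/

namespace N9e

open MvPolynomial

/-- The substitution `X_i ↦ X_i^3` for `i ∈ S`. -/
noncomputable def phi (S : Finset (Fin 7)) : PA →ₐ[ZMod 3] PA :=
  aeval (fun i => if i ∈ S then X i ^ 3 else X i)

/-- The substitution `X_i ↦ X_i^3` for `i ∉ S`. -/
noncomputable def psi (S : Finset (Fin 7)) : PA →ₐ[ZMod 3] PA :=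
  aeval (fun i => if i ∈ S then X i else X i ^ 3)

theorem phi_X (S : Finset (Fin 7)) (i : Fin 7) : phi S (X i) = if i ∈ S then X i ^ 3 else X i := by
  simp [phi]

theorem phi_psi (S : Finset (Fin 7)) (p : PA) : phi S (psi S p) = p ^ 3 := by
  have h : (phi S).comp (psi S) = (expand 3 : PA →ₐ[ZMod 3] PA) := by
    refine MvPolynomial.algHom_ext fun i => ?_
    simp only [AlgHom.comp_apply, expand_X]
    by_cases hi : i ∈ S
    · simp [phi, psi, hi]
    · simp [phi, psi, hi]
  rw [← AlgHom.comp_apply, h, expand_zmod]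

theorem phi_injective (S : Finset (Fin 7)) : Function.Injective (phi S) := by
  rw [injective_iff_map_eq_zero]
  intro p hp
  have h1 : psi S (phi S p) = p ^ 3 := by
    have h : (psi S).comp (phi S) = (expand 3 : PA →ₐ[ZMod 3] PA) := by
      refine MvPolynomial.algHom_ext fun i => ?_
      simp only [AlgHom.comp_apply, expand_X]
      by_cases hi : i ∈ S
      · simp [phi, psi, hi]
      · simp [phi, psi, hi]
    rw [← AlgHom.comp_apply, h, expand_zmod]
  rw [hp, map_zero] at h1
  exact pow_eq_zero_iff (by norm_num) |>.1 h1.symm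

theorem dvd_of_pderiv_eq_zero {i : Fin 7} {G : PA} (h : pderiv i G = 0) {m : Fin 7 →₀ ℕ}
    (hm : m ∈ G.support) : 3 ∣ m i := by
  rcases Nat.eq_zero_or_pos (m i) with h0 | h0
  · rw [h0]; exact dvd_zero _
  have h1 := coeff_pderiv (i := i) G (m - Finsupp.single i 1)
  have h2 : m - Finsupp.single i 1 + Finsupp.single i 1 = m := by
    refine tsub_add_cancel_of_le ?_
    rw [Finsupp.single_le_iff]
    exact h0
  rw [h, coeff_zero, h2] at h1
  have h3 : coeff m G ≠ 0 := mem_support_iff.1 hm
  have h4 : (((m - Finsupp.single i 1 : Fin 7 →₀ ℕ) i : ℕ) : ZMod 3) + 1 = 0 := by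
    rcases mul_eq_zero.1 h1.symm with h5 | h5
    · exact absurd h5 h3
    · exact h5
  have h5 : ((m i : ℕ) : ZMod 3) = 0 := by
    rw [← h4]
    have h6 : m i = (m - Finsupp.single i 1 : Fin 7 →₀ ℕ) i + 1 := by
      rw [Finsupp.tsub_apply, Finsupp.single_eq_same]
      omega
    conv_lhs => rw [h6]
    push_cast
    rfl
  exact (ZMod.natCast_eq_zero_iff _ _).1 h5

theorem mem_range_phi (S : Finset (Fin 7)) (G : PA) (h : ∀ i ∈ S, pderiv i G = 0) :
    ∃ P, phi S P = G := by
  classical
  have h1 : ∀ m ∈ G.support, ∃ P, phi S P = monomial m (coeff m G) := by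
    intro m hm
    refine ⟨monomial (Finsupp.equivFunOnFinite.symm fun i => if i ∈ S then m i / 3 else m i)
      (coeff m G), ?_⟩
    rw [phi, aeval_monomial, monomial_eq]
    congr 1
    rw [Finsupp.prod_fintype _ _ (fun i => pow_zero _), Finsupp.prod_fintype _ _ (fun i => pow_zero _)]
    refine Finset.prod_congr rfl fun i _ => ?_
    by_cases hi : i ∈ S
    · have h3 : 3 * (m i / 3) = m i := Nat.mul_div_cancel' (dvd_of_pderiv_eq_zero (h i hi) hm)
      simp only [Finsupp.equivFunOnFinite_symm_apply_apply, if_pos hi]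
      rw [← pow_mul, h3]
    · simp only [Finsupp.equivFunOnFinite_symm_apply_apply, if_neg hi]
  choose! P hP using h1
  refine ⟨∑ m ∈ G.support, P m, ?_⟩
  rw [map_sum, Finset.sum_congr rfl hP]
  exact G.support_sum_monomial_coeff

/-- A rational function killed by the derivatives with respect to the variables in `S` is a
quotient of two polynomials in which the variables of `S` occur only through their cubes. -/
theorem kernel_pd (S : Finset (Fin 7)) (F : MM) (h : ∀ i ∈ S, pd i F = 0) :
    ∃ P Q : PA, Q ≠ 0 ∧ F = algebraMap PA MM (phi S P) / algebraMap PA MM (phi S Q) := by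
  obtain ⟨a, b, hb, rfl⟩ := IsFractionRing.div_surjective (A := PA) F
  have hb0 : b ≠ 0 := nonZeroDivisors.ne_zero hb
  have hb1 : algebraMap PA MM b ≠ 0 := IsFractionRing.to_map_ne_zero_of_mem_nonZeroDivisors hb
  have h1 : ∀ i ∈ S, pderiv i (a * b ^ 2) = 0 := by
    intro i hi
    have h2 : algebraMap PA MM (a * b ^ 2) = algebraMap PA MM a / algebraMap PA MM b *
        algebraMap PA MM b ^ 3 := by
      rw [map_mul, map_pow]
      field_simp
    have h3 : algebraMap PA MM (pderiv i (a * b ^ 2)) = 0 := by
      rw [← pd_algebraMap, h2, Derivation.leibniz, h i hi, smul_zero, add_zero,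
        Derivation.leibniz_pow]
      have : (3 : MM) = 0 := three_MM
      simp [this, nsmul_eq_mul]
    rw [← map_zero (algebraMap PA MM)] at h3
    exact IsFractionRing.injective PA MM h3
  obtain ⟨P, hP⟩ := mem_range_phi S (a * b ^ 2) h1
  refine ⟨P, psi S b, ?_, ?_⟩
  · intro h0
    have := phi_psi S b
    rw [h0, map_zero] at this
    exact hb0 (pow_eq_zero_iff (by norm_num) |>.1 this.symm)
  · rw [hP, phi_psi, map_mul, map_pow, map_pow]
    field_simp

end N9e
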