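import Mathlib

set_option autoImplicit false
set_option linter.unusedSectionVars false
set_option linter.style.longLine false

/-!
# Derivations of the field of rational functions in seven variables over `F_3`

The seven variables are `t` (index 0), `x_1, x_2, x_3` (1, 2, 3), `y_1, y_2, y_3` (4, 5, 6).
-/

namespace N9e

open MvPolynomial

/-! ### Extension of a derivation to the fraction field -/

section Frac

universe u w

variable {k : Type w} {R : Type u} [CommRing k] [CommRing R] [IsDomain R] [Algebra k R]

/-- The ring homomorphism to the dual numbers attached to a derivation. -/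
noncomputable def dphi (D : Derivation k R R) :
    R →+* TrivSqZeroExt (FractionRing R) (FractionRing R) where
  toFun r := (algebraMap R (FractionRing R) r, algebraMap R (FractionRing R) (D r))
  map_one' := by
    refine TrivSqZeroExt.ext ?_ ?_
    · change algebraMap R (FractionRing R) 1 = 1
      exact map_one _
    · change algebraMap R (FractionRing R) (D 1) = 0
      rw [D.map_one_eq_zero, map_zero]
  map_mul' a b := by
    refine TrivSqZeroExt.ext ?_ ?_
    · change algebraMap R (FractionRing R) (a * b) = algebraMap R (FractionRing R) a * algebraMap R (FractionRing R) b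
      exact map_mul _ _ _
    · change algebraMap R (FractionRing R) (D (a * b)) =
        algebraMap R (FractionRing R) a * algebraMap R (FractionRing R) (D b) +
          algebraMap R (FractionRing R) (D a) * algebraMap R (FractionRing R) b
      rw [D.leibniz, smul_eq_mul, smul_eq_mul, map_add, map_mul, map_mul, mul_comm (algebraMap R _ b)]
  map_zero' := by
    refine TrivSqZeroExt.ext ?_ ?_
    · change algebraMap R (FractionRing R) 0 = 0
      exact map_zero _
    · change algebraMap R (FractionRing R) (D 0) = 0
      rw [map_zero, map_zero]
  map_add' a b := by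
    refine TrivSqZeroExt.ext ?_ ?_
    · change algebraMap R (FractionRing R) (a + b) = algebraMap R (FractionRing R) a + algebraMap R (FractionRing R) b
      exact map_add _ _ _
    · change algebraMap R (FractionRing R) (D (a + b)) =
        algebraMap R (FractionRing R) (D a) + algebraMap R (FractionRing R) (D b)
      rw [map_add, map_add]

theorem dphi_fst (D : Derivation k R R) (r : R) :
    (dphi D r).fst = algebraMap R (FractionRing R) r := rfl

theorem dphi_snd (D : Derivation k R R) (r : R) :
    (dphi D r).snd = algebraMap R (FractionRing R) (D r) := rfl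

theorem dphi_unit (D : Derivation k R R) (y : nonZeroDivisors R) : IsUnit (dphi D y) := by
  rw [TrivSqZeroExt.isUnit_iff_isUnit_fst, dphi_fst]
  exact IsLocalization.map_units (FractionRing R) y

/-- The extension to the fraction field. -/
noncomputable def dlift (D : Derivation k R R) :
    FractionRing R →+* TrivSqZeroExt (FractionRing R) (FractionRing R) :=
  IsLocalization.lift (M := nonZeroDivisors R) (dphi_unit D)

theorem dlift_algebraMap (D : Derivation k R R) (r : R) :
    dlift D (algebraMap R (FractionRing R) r) = dphi D r :=
  IsLocalization.lift_eq (dphi_unit D) r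

theorem dlift_fst (D : Derivation k R R) (x : FractionRing R) : (dlift D x).fst = x := by
  have h : ((TrivSqZeroExt.fstHom (FractionRing R) (FractionRing R) (FractionRing R) :
      TrivSqZeroExt (FractionRing R) (FractionRing R) →+* FractionRing R)).comp (dlift D) =
      RingHom.id _ := by
    refine IsLocalization.ringHom_ext (nonZeroDivisors R) (RingHom.ext fun r => ?_)
    simp only [RingHom.comp_apply, RingHom.id_apply]
    rw [dlift_algebraMap]
    rfl
  exact DFunLike.congr_fun h x

theorem exists_fracDer (D : Derivation k R R) :
    ∃ D' : Derivation k (FractionRing R) (FractionRing R),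
      ∀ r, D' (algebraMap R (FractionRing R) r) = algebraMap R (FractionRing R) (D r) := by
  have hmul : ∀ x y : FractionRing R, (dlift D (x * y)).snd =
      x * (dlift D y).snd + y * (dlift D x).snd := by
    intro x y
    rw [map_mul, TrivSqZeroExt.snd_mul, dlift_fst, dlift_fst]
    simp [mul_comm]
  refine ⟨Derivation.mk' { toFun := fun x => (dlift D x).snd
                           map_add' := fun x y => by rw [map_add, TrivSqZeroExt.snd_add]
                           map_smul' := fun c x => ?_ } fun x y => ?_, fun r => ?_⟩
  · rw [RingHom.id_apply, Algebra.smul_def, hmul, IsScalarTower.algebraMap_apply k R (FractionRing R),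
      dlift_algebraMap, dphi_snd, D.map_algebraMap, map_zero, mul_zero, add_zero,
      ← IsScalarTower.algebraMap_apply, ← Algebra.smul_def]
  · exact hmul x y
  · change (dlift D (algebraMap R (FractionRing R) r)).snd = _
    rw [dlift_algebraMap, dphi_snd]

/-- The extension of a derivation to the fraction field. -/
noncomputable def fracDer (D : Derivation k R R) :
    Derivation k (FractionRing R) (FractionRing R) := (exists_fracDer D).choose

@[simp]
theorem fracDer_algebraMap (D : Derivation k R R) (r : R) :
    fracDer D (algebraMap R (FractionRing R) r) = algebraMap R (FractionRing R) (D r) :=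
  (exists_fracDer D).choose_spec r

/-- Two additive Leibniz maps from a fraction field to a field extension that agree on `R`
agree. -/
theorem leib_ext_frac {L : Type*} [Field L] (f : FractionRing R →+* L)
    (D D' : FractionRing R →+ L)
    (hD : ∀ x y, D (x * y) = f x * D y + f y * D x)
    (hD' : ∀ x y, D' (x * y) = f x * D' y + f y * D' x)
    (h : ∀ r : R, D (algebraMap R (FractionRing R) r) = D' (algebraMap R (FractionRing R) r)) :
    D = D' := by
  ext x
  obtain ⟨a, b, hb, rfl⟩ := IsFractionRing.div_surjective (A := R) x
  have hb0 : algebraMap R (FractionRing R) b ≠ 0 :=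
    IsFractionRing.to_map_ne_zero_of_mem_nonZeroDivisors hb
  have hfb : f (algebraMap R (FractionRing R) b) ≠ 0 := by
    intro h0
    exact hb0 (by rw [← map_zero f] at h0; exact f.injective h0)
  have e : algebraMap R (FractionRing R) a / algebraMap R (FractionRing R) b
      * algebraMap R (FractionRing R) b = algebraMap R (FractionRing R) a := div_mul_cancel₀ _ hb0
  have h1 := hD (algebraMap R (FractionRing R) a / algebraMap R (FractionRing R) b)
    (algebraMap R (FractionRing R) b)
  have h2 := hD' (algebraMap R (FractionRing R) a / algebraMap R (FractionRing R) b)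
    (algebraMap R (FractionRing R) b)
  rw [e, h, h b] at h1
  rw [e] at h2
  rw [h2] at h1
  have h3 := add_left_cancel h1
  exact (mul_left_cancel₀ hfb h3).symm

end Frac

/-! ### The field -/

/-- Polynomials in seven variables over `F_3`. -/
abbrev PA := MvPolynomial (Fin 7) (ZMod 3)

/-- Rational functions in seven variables over `F_3`. -/
abbrev MM := FractionRing PA

instance : Fact (Nat.Prime 3) := ⟨Nat.prime_three⟩

instance : CharP PA 3 := inferInstance

instance charP_MM : CharP MM 3 := charP_of_injective_algebraMap
  (IsFractionRing.injective PA MM) 3

theorem three_MM : (3 : MM) = 0 := by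
  have := CharP.cast_eq_zero MM 3
  exact_mod_cast this

/-- The variables as rational functions. -/
noncomputable def xx (i : Fin 7) : MM := algebraMap PA MM (X i)

theorem xx_ne_zero (i : Fin 7) : xx i ≠ 0 := by
  unfold xx
  intro h
  rw [← map_zero (algebraMap PA MM)] at h
  exact X_ne_zero i (IsFractionRing.injective PA MM h)

/-- The derivatives with respect to the variables. -/
noncomputable def pd (i : Fin 7) : Derivation (ZMod 3) MM MM := fracDer (pderiv i)

theorem pd_algebraMap (i : Fin 7) (p : PA) : pd i (algebraMap PA MM p) = algebraMap PA MM (pderiv i p) :=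
  fracDer_algebraMap _ _

theorem pd_xx (i j : Fin 7) : pd i (xx j) = if i = j then 1 else 0 := by
  rw [xx, pd_algebraMap, pderiv_X]
  by_cases h : i = j
  · subst h; simp
  · rw [if_neg h, Pi.single_eq_of_ne (fun h' => h h'.symm), map_zero]

theorem pd_self (i : Fin 7) : pd i (xx i) = 1 := by rw [pd_xx, if_pos rfl]

/-- Additive Leibniz maps on `MM` are determined by their values at the variables. -/
theorem leib_ext {L : Type*} [Field L] (f : MM →+* L) (u v : MM →+ L)
    (hu : ∀ a b, u (a * b) = f a * u b + f b * u a)
    (hv : ∀ a b, v (a * b) = f a * v b + f b * v a)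
    (h : ∀ i, u (xx i) = v (xx i)) : u = v := by
  refine leib_ext_frac f u v hu hv fun r => ?_
  have hC : ∀ (w : MM →+ L) (hw : ∀ a b, w (a * b) = f a * w b + f b * w a) (c : ZMod 3),
      w (algebraMap PA MM (C c)) = 0 := by
    intro w hw c
    have h1 : w 1 = 0 := by
      have := hw 1 1
      rw [mul_one, map_one f, one_mul] at this
      exact left_eq_add.1 this
    have h2 : algebraMap PA MM (C c) = (c.val : MM) := by
      conv_lhs => rw [← ZMod.natCast_zmod_val c]
      rw [map_natCast, map_natCast]
    rw [h2, ← nsmul_one, map_nsmul, h1, nsmul_zero]
  induction r using MvPolynomial.induction_on with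
  | C c => rw [hC u hu, hC v hv]
  | add p q hp hq => rw [map_add, map_add, map_add, hp, hq]
  | mul_X p i hp =>
    rw [map_mul, hu, hv, hp]
    have := h i
    rw [xx] at this
    rw [this]

theorem leib_ext' (u v : MM →+ MM)
    (hu : ∀ a b, u (a * b) = a * u b + b * u a)
    (hv : ∀ a b, v (a * b) = a * v b + b * v a)
    (h : ∀ i, u (xx i) = v (xx i)) : u = v :=
  leib_ext (RingHom.id MM) u v hu hv h

end N9e
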