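import Pool.Agent.H.MP_9e990c_al.h86.Vzero

set_option autoImplicit false
set_option linter.unusedSectionVars false
set_option linter.style.longLine false

/-!
# The abstract deduction for additive maps with the Leibniz rule
-/

namespace N9e

variable {M : Type*} [Field M]

/-- Additive maps with the Leibniz rule. -/
structure IsDer (D : M → M) : Prop where
  add : ∀ a b, D (a + b) = D a + D b
  mul : ∀ a b, D (a * b) = a * D b + b * D a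

/-- The derivation attached to such a map. -/
def IsDer.toDer {D : M → M} (h : IsDer D) : Derivation ℤ M M :=
  Derivation.mk' (AddMonoidHom.mk' D h.add).toIntLinearMap h.mul

theorem IsDer.toDer_apply {D : M → M} (h : IsDer D) (F : M) : h.toDer F = D F := rfl

theorem IsDer.zero {D : M → M} (h : IsDer D) : D 0 = 0 := by
  have := h.toDer.map_zero
  exact this

theorem IsDer.sub {D : M → M} (h : IsDer D) (a b : M) : D (a - b) = D a - D b := by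
  have := h.toDer.map_sub a b
  exact this

variable [CharP M 3]

theorem casimirF {t : M} {E1 E3 : M → M} (h1 : IsDer E1) (h3 : IsDer E3) (ht1 : E1 t = 0)
    (ht3 : E3 t = 0) (hcomm : ∀ F, E1 (E3 F) = E3 (E1 F)) (hc1 : ∀ F, E1 (E1 (E1 F)) = E1 F)
    (hc3 : ∀ F, E3 (E3 (E3 F)) = E3 F) (htt : t ^ 3 ≠ t) {F : M} (hL : t * E1 F + E3 F = 0) :
    E1 F = 0 ∧ E3 F = 0 :=
  MP9e990c.H86.casimir (D1 := h1.toDer) (D3 := h3.toDer) ht1 ht3 hcomm hc1 hc3 htt hL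

theorem L_sqF {t : M} {E1 E3 : M → M} (h1 : IsDer E1) (h3 : IsDer E3) (ht1 : E1 t = 0)
    (ht3 : E3 t = 0) (hcomm : ∀ F, E1 (E3 F) = E3 (E1 F)) (hc1 : ∀ F, E1 (E1 (E1 F)) = E1 F)
    (hc3 : ∀ F, E3 (E3 (E3 F)) = E3 F) (htt : t ^ 3 ≠ t) {F : M}
    (hL : t * E1 (t * E1 F + E3 F) + E3 (t * E1 F + E3 F) = 0) : t * E1 F + E3 F = 0 :=
  MP9e990c.H86.L_sq_zero (D1 := h1.toDer) (D3 := h3.toDer) ht1 ht3 hcomm hc1 hc3 htt hL

theorem ne_of_dtF {t : M} {dt : M → M} (h : IsDer dt) (hdt : dt t = 1) : t ^ 3 ≠ t :=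
  MP9e990c.H86.ne_of_dt h.toDer hdt

/-- The abstract deduction. -/
theorem v_zeroF (t y1 y2 y3 : M) (hy1 : y1 ≠ 0) (hy2 : y2 ≠ 0) (hy3 : y3 ≠ 0)
    (E1 E2 E3 dt v : M → M) (d1 : IsDer E1) (d2 : IsDer E2) (d3 : IsDer E3) (ddt : IsDer dt)
    (dv : IsDer v) (a1 a2 a3 : M)
    (ht1 : E1 t = 0) (ht2 : E2 t = 0) (ht3 : E3 t = 0)
    (h11 : E1 y1 = y1) (h12 : E1 y2 = 0) (h13 : E1 y3 = 0)
    (h21 : E2 y1 = 0) (h22 : E2 y2 = y2) (h23 : E2 y3 = 0)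
    (h31 : E3 y1 = 0) (h32 : E3 y2 = 0) (h33 : E3 y3 = y3)
    (hcomm : ∀ F, E1 (E3 F) = E3 (E1 F))
    (hD1 : ∀ F, E1 (E1 (E1 F)) = E1 F) (hD3 : ∀ F, E3 (E3 (E3 F)) = E3 F)
    (hdt : dt t = 1)
    (hv : ∀ F, v F = a1 * E1 F + a2 * E2 F + a3 * E3 F)
    (hbr : ∀ F G, v (E2 F * (t * E1 G + E3 G) - (t * E1 F + E3 F) * E2 G) =
      (E2 (v F) * (t * E1 G + E3 G) - (t * E1 (v F) + E3 (v F)) * E2 G) +
      (E2 F * (t * E1 (v G) + E3 (v G)) - (t * E1 F + E3 F) * E2 (v G)))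
    (sg : M →+* M) (hsg : ∀ F, sg (v F) = v (sg F))
    (hs1 : sg y1 = y1⁻¹) (hs2 : sg y2 = y2⁻¹) (hs3 : sg y3 = y3⁻¹)
    (hstar : ∀ a b : M, a ^ 3 - a = t * (b ^ 3 - b) →
      (∃ n : ℤ, a = n) ∧ (∃ n : ℤ, b = n))
    (hv3 : (∀ F, v (v (v F)) = 0) ∨ (∀ F, v (v (v F)) = v F)) (F : M) : v F = 0 :=
  MP9e990c.H86.v_zero t y1 y2 y3 hy1 hy2 hy3 d1.toDer d2.toDer d3.toDer ddt.toDer dv.toDer a1 a2 a3
    ht1 ht2 ht3 h11 h12 h13 h21 h22 h23 h31 h32 h33 hcomm hD1 hD3 hdt hv hbr sg hsg hs1 hs2 hs3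
    hstar hv3 F

end N9e
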