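import Pool.Agent.H.MP_9e990c_al.h30.Der

set_option autoImplicit false
set_option linter.unusedSectionVars false
set_option linter.style.longLine false

/-!
# The involution of the residue field
-/

namespace N9e

open MvPolynomial

theorem algebraMap_injective_MM : Function.Injective (algebraMap PA MM) :=
  IsFractionRing.injective PA MM

/-- Ring homomorphisms on `MM` are determined by their values at the variables. -/
theorem hom_ext {L : Type*} [Field L] (f g : MM →+* L) (h : ∀ i, f (xx i) = g (xx i)) : f = g := by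
  refine IsLocalization.ringHom_ext (nonZeroDivisors PA) ?_
  refine MvPolynomial.ringHom_ext (fun r => ?_) (fun i => ?_)
  · have : (f.comp (algebraMap PA MM)).comp C = (g.comp (algebraMap PA MM)).comp C :=
      Subsingleton.elim _ _
    exact DFunLike.congr_fun this r
  · exact h i

/-- The images of the variables under the involution. -/
noncomputable def sbv (i : Fin 7) : MM :=
  if i = 0 then xx i else if i = 1 ∨ i = 2 ∨ i = 3 then - xx i else (xx i)⁻¹

/-- The substitution. -/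
noncomputable def sbe : PA →+* MM := eval₂Hom (algebraMap (ZMod 3) MM) sbv

theorem sbe_X (i : Fin 7) : sbe (X i) = sbv i := by simp [sbe]

theorem sbe_C (c : ZMod 3) : sbe (C c) = algebraMap PA MM (C c) := by
  rw [sbe]
  simp only [coe_eval₂Hom, eval₂_C]
  rw [← MvPolynomial.algebraMap_eq, ← IsScalarTower.algebraMap_apply]

/-- The product of the `y_j`. -/
noncomputable def yprod : MM := xx 4 * (xx 5 * xx 6)

theorem sbe_key (f : PA) : ∃ (g : PA) (N : ℕ),
    yprod ^ N * sbe f = algebraMap PA MM g ∧ yprod ^ N * sbe g = algebraMap PA MM f := by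
  have h4 := xx_ne_zero 4
  have h5 := xx_ne_zero 5
  have h6 := xx_ne_zero 6
  have hy : yprod ≠ 0 := mul_ne_zero h4 (mul_ne_zero h5 h6)
  have hY : algebraMap PA MM (X 4 * (X 5 * X 6)) = yprod := by
    simp [yprod, xx]
  have hYs : yprod * sbe (X 4 * (X 5 * X 6)) = 1 := by
    rw [map_mul, map_mul, sbe_X, sbe_X, sbe_X]
    simp only [sbv, yprod]
    simp
    field_simp
  induction f using MvPolynomial.induction_on with
  | C c => exact ⟨C c, 0, by rw [pow_zero, one_mul, sbe_C], by rw [pow_zero, one_mul, sbe_C]⟩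
  | add p q hp hq =>
    obtain ⟨g1, N1, h1, h2⟩ := hp
    obtain ⟨g2, N2, h3, h4⟩ := hq
    refine ⟨(X 4 * (X 5 * X 6)) ^ N2 * g1 + (X 4 * (X 5 * X 6)) ^ N1 * g2, N1 + N2, ?_, ?_⟩
    · rw [map_add, map_add, map_mul, map_mul, map_pow, map_pow, hY, ← h1, ← h3]
      ring
    · rw [map_add, map_add, map_mul, map_mul, map_pow, map_pow, ← h2, ← h4]
      have e1 : yprod ^ N2 * sbe (X 4 * (X 5 * X 6)) ^ N2 = 1 := by
        rw [← mul_pow, hYs, one_pow]
      have e2 : yprod ^ N1 * sbe (X 4 * (X 5 * X 6)) ^ N1 = 1 := by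
        rw [← mul_pow, hYs, one_pow]
      linear_combination (yprod ^ N1 * sbe g1) * e1 + (yprod ^ N2 * sbe g2) * e2
  | mul_X p i hp =>
    obtain ⟨g1, N1, h1, h2⟩ := hp
    have hi : ∃ h : PA, yprod * sbe (X i) = algebraMap PA MM h ∧ yprod * sbe h = xx i := by
      fin_cases i
      · refine ⟨X 4 * (X 5 * X 6) * X 0, ?_, ?_⟩
        · rw [map_mul, hY, sbe_X]; simp [sbv, xx]
        · rw [map_mul, ← mul_assoc, hYs, one_mul, sbe_X]; simp [sbv]
      · refine ⟨X 4 * (X 5 * X 6) * (- X 1), ?_, ?_⟩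
        · rw [map_mul, hY, sbe_X]; simp [sbv, xx]
        · rw [map_mul, ← mul_assoc, hYs, one_mul, map_neg, sbe_X]; simp [sbv]
      · refine ⟨X 4 * (X 5 * X 6) * (- X 2), ?_, ?_⟩
        · rw [map_mul, hY, sbe_X]; simp [sbv, xx]
        · rw [map_mul, ← mul_assoc, hYs, one_mul, map_neg, sbe_X]; simp [sbv]
      · refine ⟨X 4 * (X 5 * X 6) * (- X 3), ?_, ?_⟩
        · rw [map_mul, hY, sbe_X]; simp [sbv, xx]
        · rw [map_mul, ← mul_assoc, hYs, one_mul, map_neg, sbe_X]; simp [sbv]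
      · refine ⟨X 5 * X 6, ?_, ?_⟩
        · rw [map_mul, sbe_X]; simp [sbv, yprod]; rw [← xx, ← xx]; field_simp
        · rw [map_mul, sbe_X, sbe_X]; simp [sbv, yprod]; field_simp
      · refine ⟨X 4 * X 6, ?_, ?_⟩
        · rw [map_mul, sbe_X]; simp [sbv, yprod]; rw [← xx, ← xx]; field_simp
        · rw [map_mul, sbe_X, sbe_X]; simp [sbv, yprod]; field_simp
      · refine ⟨X 4 * X 5, ?_, ?_⟩
        · rw [map_mul, sbe_X]; simp [sbv, yprod]; rw [← xx, ← xx]; field_simp
        · rw [map_mul, sbe_X, sbe_X]; simp [sbv, yprod]; field_simp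
    obtain ⟨h, hh1, hh2⟩ := hi
    refine ⟨g1 * h, N1 + 1, ?_, ?_⟩
    · rw [map_mul, map_mul, ← h1, ← hh1]; ring
    · rw [map_mul, map_mul, ← h2, ← xx, ← hh2]; ring

theorem sbe_injective : Function.Injective sbe := by
  rw [injective_iff_map_eq_zero]
  intro f hf
  obtain ⟨g, N, h1, h2⟩ := sbe_key f
  rw [hf, mul_zero] at h1
  have hg : g = 0 := algebraMap_injective_MM (by rw [← h1, map_zero])
  rw [hg, map_zero, mul_zero] at h2
  exact algebraMap_injective_MM (by rw [← h2, map_zero])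

/-- The involution `t ↦ t`, `x_j ↦ -x_j`, `y_j ↦ 1/y_j`. -/
noncomputable def sb : MM →+* MM := IsFractionRing.lift sbe_injective

theorem sb_xx (i : Fin 7) : sb (xx i) = sbv i := by
  rw [sb, xx, IsFractionRing.lift_algebraMap, sbe_X]

theorem sb_t : sb (xx 0) = xx 0 := by rw [sb_xx]; simp [sbv]
theorem sb_x1 : sb (xx 1) = - xx 1 := by rw [sb_xx]; simp [sbv]
theorem sb_x2 : sb (xx 2) = - xx 2 := by rw [sb_xx]; simp [sbv]
theorem sb_x3 : sb (xx 3) = - xx 3 := by rw [sb_xx]; simp [sbv]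
theorem sb_y1 : sb (xx 4) = (xx 4)⁻¹ := by rw [sb_xx]; simp [sbv]
theorem sb_y2 : sb (xx 5) = (xx 5)⁻¹ := by rw [sb_xx]; simp [sbv]
theorem sb_y3 : sb (xx 6) = (xx 6)⁻¹ := by rw [sb_xx]; simp [sbv]

theorem sb_sb (F : MM) : sb (sb F) = F := by
  have h : sb.comp sb = RingHom.id MM := by
    refine hom_ext _ _ fun i => ?_
    rw [RingHom.comp_apply, RingHom.id_apply]
    fin_cases i
    · change sb (sb (xx 0)) = xx 0; rw [sb_t, sb_t]
    · change sb (sb (xx 1)) = xx 1; rw [sb_x1, map_neg, sb_x1, neg_neg]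
    · change sb (sb (xx 2)) = xx 2; rw [sb_x2, map_neg, sb_x2, neg_neg]
    · change sb (sb (xx 3)) = xx 3; rw [sb_x3, map_neg, sb_x3, neg_neg]
    · change sb (sb (xx 4)) = xx 4; rw [sb_y1, map_inv₀, sb_y1, inv_inv]
    · change sb (sb (xx 5)) = xx 5; rw [sb_y2, map_inv₀, sb_y2, inv_inv]
    · change sb (sb (xx 6)) = xx 6; rw [sb_y3, map_inv₀, sb_y3, inv_inv]
  exact DFunLike.congr_fun h F

end N9e
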