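import Pool.Agent.H.MP_9e990c_al.h30.Star
import Pool.Agent.H.MP_9e990c_al.h30.Kernel
import Pool.Agent.H.MP_9e990c_al.h30.Sb
import Pool.Agent.H.MP_9e990c_al.h30.Bridge

set_option autoImplicit false
set_option linter.unusedSectionVars false
set_option linter.style.longLine false

/-!
# The derivation `v` of the residue field is zero
-/

namespace N9e

open MvPolynomial

theorem isDer_ext {u v : MM → MM} (hu : IsDer u) (hv : IsDer v) (h : ∀ i, u (xx i) = v (xx i)) :
    u = v := by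
  have h1 := leib_ext' (AddMonoidHom.mk' u hu.add) (AddMonoidHom.mk' v hv.add) hu.mul hv.mul h
  funext F
  exact DFunLike.congr_fun h1 F

theorem isDer_pd (i : Fin 7) : IsDer (fun F : MM => pd i F) where
  add _ _ := map_add _ _ _
  mul a b := (pd i).leibniz a b

theorem isDer_zero : IsDer (fun _ : MM => (0 : MM)) where
  add _ _ := (add_zero _).symm
  mul _ _ := by rw [mul_zero, mul_zero, add_zero]

theorem isDer_comm {u v : MM → MM} (hu : IsDer u) (hv : IsDer v) :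
    IsDer (fun F => u (v F) - v (u F)) where
  add a b := by rw [hu.add, hv.add, hu.add, hv.add]; ring
  mul a b := by
    rw [hu.mul, hv.mul, hu.add, hv.add, hu.mul, hu.mul, hv.mul, hv.mul]; ring

theorem comm_of_xx {u v : MM → MM} (hu : IsDer u) (hv : IsDer v)
    (h : ∀ i, u (v (xx i)) = v (u (xx i))) (F : MM) : u (v F) = v (u F) := by
  have h1 := isDer_ext (isDer_comm hu hv) isDer_zero (fun i => by rw [h, sub_self])
  exact sub_eq_zero.1 (congrFun h1 F)

/-- The derivation `X_i ∂/∂X_i`. -/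
noncomputable def eu (i : Fin 7) (F : MM) : MM := xx i * pd i F

theorem isDer_eu (i : Fin 7) : IsDer (eu i) where
  add a b := by rw [eu, map_add, mul_add]; rfl
  mul a b := by
    have := (isDer_pd i).mul a b
    rw [eu, this, eu, eu]; ring

theorem eu_xx (i j : Fin 7) : eu i (xx j) = if i = j then xx i else 0 := by
  rw [eu, pd_xx]
  by_cases h : i = j
  · rw [if_pos h, if_pos h, mul_one]
  · rw [if_neg h, if_neg h, mul_zero]

theorem eu_self (i : Fin 7) : eu i (xx i) = xx i := by rw [eu_xx, if_pos rfl]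

theorem eu_ne {i j : Fin 7} (h : i ≠ j) : eu i (xx j) = 0 := by rw [eu_xx, if_neg h]

theorem eu_eq_zero_iff (i : Fin 7) (F : MM) : eu i F = 0 ↔ pd i F = 0 := by
  rw [eu, mul_eq_zero, or_iff_right (xx_ne_zero i)]

theorem eu_zero (i : Fin 7) : eu i 0 = 0 := (isDer_eu i).zero

theorem pd_comm (i j : Fin 7) (F : MM) : pd i (pd j F) = pd j (pd i F) := by
  refine comm_of_xx (isDer_pd i) (isDer_pd j) (fun k => ?_) F
  simp only [pd_xx]
  split_ifs <;> simp

theorem pd_eu_comm {i j : Fin 7} (hij : i ≠ j) (F : MM) : pd i (eu j F) = eu j (pd i F) := by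
  refine comm_of_xx (isDer_pd i) (isDer_eu j) (fun k => ?_) F
  simp only [pd_xx, eu_xx]
  by_cases h1 : j = k
  · subst h1
    rw [if_pos rfl, pd_xx, if_neg hij]
    rw [eu_zero]
  · rw [if_neg h1, map_zero]
    by_cases h2 : i = k
    · rw [if_pos h2, eu, Derivation.map_one_eq_zero, mul_zero]
    · rw [if_neg h2, eu_zero]

theorem pd_cube_pow (i : Fin 7) (F : MM) : pd i (F ^ 3) = 0 := by
  rw [Derivation.leibniz_pow]
  have : (3 : MM) = 0 := three_MM
  simp [this, nsmul_eq_mul]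

theorem eu_cube_pow (i : Fin 7) (F : MM) : eu i (F ^ 3) = 0 := by
  rw [eu, pd_cube_pow, mul_zero]

theorem eu_comm (i j : Fin 7) (F : MM) : eu i (eu j F) = eu j (eu i F) := by
  refine comm_of_xx (isDer_eu i) (isDer_eu j) (fun k => ?_) F
  rw [eu_xx, eu_xx]
  by_cases h1 : j = k
  · subst h1
    rw [if_pos rfl]
    by_cases h2 : i = j
    · subst h2; rw [if_pos rfl]
    · rw [if_neg h2, eu_ne h2, eu_zero]
  · rw [if_neg h1, eu_zero]
    by_cases h2 : i = k
    · subst h2; rw [if_pos rfl, eu_ne h1]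
    · rw [if_neg h2, eu_zero]

theorem eu_cube (i : Fin 7) (F : MM) : eu i (eu i (eu i F)) = eu i F := by
  have hd := isDer_eu i
  have three : (3 : MM) = 0 := three_MM
  have h : IsDer (fun F => eu i (eu i (eu i F))) :=
    { add := fun a b => by rw [hd.add, hd.add, hd.add]
      mul := fun a b => by
        simp only [hd.mul, hd.add]
        linear_combination (eu i a * eu i (eu i b) + eu i b * eu i (eu i a)) * three }
  refine congrFun (isDer_ext h hd fun k => ?_) F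
  by_cases h : i = k
  · subst h; rw [eu_self, eu_self, eu_self]
  · rw [eu_ne h, eu_zero, eu_zero]

/-- The operator `L = t D_1 + D_3`. -/
noncomputable def LL (F : MM) : MM := xx 0 * eu 4 F + eu 6 F

theorem isDer_LL : IsDer LL where
  add a b := by rw [LL, (isDer_eu 4).add, (isDer_eu 6).add, LL, LL]; ring
  mul a b := by rw [LL, (isDer_eu 4).mul, (isDer_eu 6).mul, LL, LL]; ring

theorem t_cube_ne : (xx 0) ^ 3 ≠ xx 0 := ne_of_dtF (isDer_pd 0) (pd_self 0)

theorem t4 : eu 4 (xx 0) = 0 := eu_ne (by decide)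
theorem t5 : eu 5 (xx 0) = 0 := eu_ne (by decide)
theorem t6 : eu 6 (xx 0) = 0 := eu_ne (by decide)

theorem LL_y1 : LL (xx 4) = xx 0 * xx 4 := by
  rw [LL, eu_self, eu_ne (by decide), add_zero]
theorem LL_y2 : LL (xx 5) = 0 := by
  rw [LL, eu_ne (by decide), eu_ne (by decide), mul_zero, add_zero]
theorem LL_y3 : LL (xx 6) = xx 6 := by
  rw [LL, eu_ne (by decide), eu_self, mul_zero, zero_add]

/-- Casimir lemma. -/
theorem casimir {F : MM} (h : LL F = 0) : eu 4 F = 0 ∧ eu 6 F = 0 :=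
  casimirF (isDer_eu 4) (isDer_eu 6) t4 t6 (eu_comm 4 6) (eu_cube 4) (eu_cube 6) t_cube_ne h

theorem LL_sq {F : MM} (h : LL (LL F) = 0) : LL F = 0 :=
  L_sqF (isDer_eu 4) (isDer_eu 6) t4 t6 (eu_comm 4 6) (eu_cube 4) (eu_cube 6) t_cube_ne h

theorem eu_sq (i : Fin 7) {F : MM} (h : eu i (eu i F) = 0) : eu i F = 0 := by
  rw [← eu_cube i F, h, eu_zero]

/-- The constants of the bracket: `F` is a quotient of polynomials in `t, x_j, y_j^3`. -/
theorem const_lift {F : MM} (h2 : eu 5 F = 0) (hL : LL F = 0) :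
    ∃ P Q : PA, Q ≠ 0 ∧ F = algebraMap PA MM (phi {4, 5, 6} P) / algebraMap PA MM (phi {4, 5, 6} Q) := by
  obtain ⟨h1, h3⟩ := casimir hL
  refine kernel_pd {4, 5, 6} F fun i hi => ?_
  rw [← eu_eq_zero_iff]
  simp only [Finset.mem_insert, Finset.mem_singleton] at hi
  rcases hi with rfl | rfl | rfl
  · exact h1
  · exact h2
  · exact h3

/-- The constants of the bracket killed by the `∂/∂x_j`. -/
theorem const_lift' {F : MM} (h2 : eu 5 F = 0) (hL : LL F = 0) (hx1 : pd 1 F = 0) (hx2 : pd 2 F = 0)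
    (hx3 : pd 3 F = 0) :
    ∃ P Q : PA, Q ≠ 0 ∧ F = algebraMap PA MM (phi {1, 2, 3, 4, 5, 6} P) /
      algebraMap PA MM (phi {1, 2, 3, 4, 5, 6} Q) := by
  obtain ⟨h1, h3⟩ := casimir hL
  refine kernel_pd {1, 2, 3, 4, 5, 6} F fun i hi => ?_
  simp only [Finset.mem_insert, Finset.mem_singleton] at hi
  rcases hi with rfl | rfl | rfl | rfl | rfl | rfl
  · exact hx1
  · exact hx2
  · exact hx3
  · exact (eu_eq_zero_iff _ _).1 h1
  · exact (eu_eq_zero_iff _ _).1 h2
  · exact (eu_eq_zero_iff _ _).1 h3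

/-- The field theorem: a derivation `v` of `MM` that kills `t` and the `x_j`, respects the bracket
`D_2 F · L G - L F · D_2 G`, commutes with the involution and satisfies `v^3 = 0` or `v^3 = v`
is zero. -/
theorem FIELD (v : MM → MM) (hadd : ∀ F G, v (F + G) = v F + v G)
    (hmul : ∀ F G, v (F * G) = v F * G + F * v G)
    (h0 : v (xx 0) = 0) (h1 : v (xx 1) = 0) (h2 : v (xx 2) = 0) (h3 : v (xx 3) = 0)
    (hbr : ∀ F G, v (eu 5 F * LL G - LL F * eu 5 G) =
      (eu 5 (v F) * LL G - LL (v F) * eu 5 G) + (eu 5 F * LL (v G) - LL F * eu 5 (v G)))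
    (hsb : ∀ F, v (sb F) = sb (v F))
    (hv3 : (∀ F, v (v (v F)) = 0) ∨ (∀ F, v (v (v F)) = v F)) (F : MM) : v F = 0 := by
  have hv : IsDer v := ⟨hadd, fun a b => by rw [hmul]; ring⟩
  obtain ⟨a1, ha1⟩ : ∃ a, v (xx 4) = a * xx 4 := ⟨v (xx 4) / xx 4, (div_mul_cancel₀ _ (xx_ne_zero 4)).symm⟩
  obtain ⟨a2, ha2⟩ : ∃ a, v (xx 5) = a * xx 5 := ⟨v (xx 5) / xx 5, (div_mul_cancel₀ _ (xx_ne_zero 5)).symm⟩
  obtain ⟨a3, ha3⟩ : ∃ a, v (xx 6) = a * xx 6 := ⟨v (xx 6) / xx 6, (div_mul_cancel₀ _ (xx_ne_zero 6)).symm⟩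
  have hR : IsDer (fun F => a1 * eu 4 F + a2 * eu 5 F + a3 * eu 6 F) :=
    { add := fun a b => by rw [(isDer_eu 4).add, (isDer_eu 5).add, (isDer_eu 6).add]; ring
      mul := fun a b => by rw [(isDer_eu 4).mul, (isDer_eu 5).mul, (isDer_eu 6).mul]; ring }
  have hdec : v = fun F => a1 * eu 4 F + a2 * eu 5 F + a3 * eu 6 F := by
    refine isDer_ext hv hR fun i => ?_
    fin_cases i
    · change v (xx 0) = a1 * eu 4 (xx 0) + a2 * eu 5 (xx 0) + a3 * eu 6 (xx 0)
      rw [h0, t4, t5, t6]; ring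
    · change v (xx 1) = a1 * eu 4 (xx 1) + a2 * eu 5 (xx 1) + a3 * eu 6 (xx 1)
      rw [h1, eu_ne (by decide), eu_ne (by decide), eu_ne (by decide)]; ring
    · change v (xx 2) = a1 * eu 4 (xx 2) + a2 * eu 5 (xx 2) + a3 * eu 6 (xx 2)
      rw [h2, eu_ne (by decide), eu_ne (by decide), eu_ne (by decide)]; ring
    · change v (xx 3) = a1 * eu 4 (xx 3) + a2 * eu 5 (xx 3) + a3 * eu 6 (xx 3)
      rw [h3, eu_ne (by decide), eu_ne (by decide), eu_ne (by decide)]; ring
    · change v (xx 4) = a1 * eu 4 (xx 4) + a2 * eu 5 (xx 4) + a3 * eu 6 (xx 4)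
      rw [eu_self, eu_ne (by decide), eu_ne (by decide), ha1]; ring
    · change v (xx 5) = a1 * eu 4 (xx 5) + a2 * eu 5 (xx 5) + a3 * eu 6 (xx 5)
      rw [eu_self, eu_ne (by decide), eu_ne (by decide), ha2]; ring
    · change v (xx 6) = a1 * eu 4 (xx 6) + a2 * eu 5 (xx 6) + a3 * eu 6 (xx 6)
      rw [eu_self, eu_ne (by decide), eu_ne (by decide), ha3]; ring
  have hint : ∀ a : MM, a ^ 3 = a → ∃ n : ℤ, a = n := by
    intro a ha
    rcases eq_of_cube ha with h | h | h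
    · exact ⟨0, by rw [h]; simp⟩
    · exact ⟨1, by rw [h]; simp⟩
    · exact ⟨-1, by rw [h]; simp⟩
  exact v_zeroF (xx 0) (xx 4) (xx 5) (xx 6) (xx_ne_zero 4) (xx_ne_zero 5)
    (xx_ne_zero 6) (eu 4) (eu 5) (eu 6) (fun F => pd 0 F) v (isDer_eu 4) (isDer_eu 5) (isDer_eu 6)
    (isDer_pd 0) hv a1 a2 a3 t4 t5 t6
    (eu_self 4) (eu_ne (by decide)) (eu_ne (by decide))
    (eu_ne (by decide)) (eu_self 5) (eu_ne (by decide))
    (eu_ne (by decide)) (eu_ne (by decide)) (eu_self 6)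
    (eu_comm 4 6) (eu_cube 4) (eu_cube 6) (pd_self 0)
    (fun F => congrFun hdec F)
    (fun F G => hbr F G) sb (fun F => (hsb F).symm) sb_y1 sb_y2 sb_y3
    (fun a b hab => ⟨hint a (star hab).1, hint b (star hab).2⟩) hv3 F

end N9e
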