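import Pool.Agent.H.MP_9e990c_al.h30.Der

set_option autoImplicit false
set_option linter.unusedSectionVars false
set_option linter.style.longLine false

/-!
# The equation `a^3 - a = t (b^3 - b)` over the rational functions
-/

namespace N9e

open MvPolynomial

/-- `t` is not a cube. -/
theorem t_not_cube (a : MM) : a ^ 3 ≠ xx 0 := by
  intro h
  have h1 : pd 0 (a ^ 3) = 0 := by
    rw [Derivation.leibniz_pow]
    have : (3 : MM) = 0 := three_MM
    simp [this, nsmul_eq_mul]
  rw [h, pd_self] at h1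
  exact one_ne_zero h1

/-- The case `ε = 0`: if `a^3 = t b^3` then `a = b = 0`. -/
theorem cube_eq {a b : MM} (h : a ^ 3 = xx 0 * b ^ 3) : a = 0 ∧ b = 0 := by
  by_cases hb : b = 0
  · subst hb
    refine ⟨?_, rfl⟩
    rw [zero_pow (by norm_num), mul_zero] at h
    exact pow_eq_zero_iff (by norm_num) |>.1 h
  · exfalso
    refine t_not_cube (a / b) ?_
    rw [div_pow, h]
    field_simp

theorem degreeOf_add_C (p : PA) (c : ZMod 3) : degreeOf 0 (p + C c) = degreeOf 0 p := by
  refine le_antisymm ?_ ?_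
  · refine (degreeOf_add_le _ _ _).trans ?_
    rw [degreeOf_C]
    simp
  · have h : p = (p + C c) + C (-c) := by rw [map_neg]; ring
    conv_lhs => rw [h]
    refine (degreeOf_add_le _ _ _).trans ?_
    rw [degreeOf_C]
    simp

theorem degreeOf_cube_sub (p : PA) (h : p ^ 3 - p ≠ 0) :
    degreeOf 0 (p ^ 3 - p) = 3 * degreeOf 0 p := by
  have e : p ^ 3 - p = p * ((p + C 1) * (p + C (-1))) := by
    rw [map_neg, C_1]; ring
  rw [e] at h ⊢
  have h1 : p ≠ 0 := left_ne_zero_of_mul h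
  have h2 := right_ne_zero_of_mul h
  rw [degreeOf_mul_eq h1 h2, degreeOf_mul_eq (left_ne_zero_of_mul h2) (right_ne_zero_of_mul h2),
    degreeOf_add_C, degreeOf_add_C]
  ring

/-- The polynomial case. -/
theorem star_poly (P R : PA) (h : P ^ 3 - P = X 0 * (R ^ 3 - R)) : P ^ 3 - P = 0 ∧ R ^ 3 - R = 0 := by
  by_cases hR : R ^ 3 - R = 0
  · rw [hR, mul_zero] at h
    exact ⟨h, hR⟩
  · exfalso
    have hP : P ^ 3 - P ≠ 0 := by
      rw [h]
      exact mul_ne_zero (X_ne_zero _) hR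
    have h1 := degreeOf_cube_sub P hP
    have h2 := degreeOf_cube_sub R hR
    rw [h, degreeOf_mul_eq (X_ne_zero _) hR, degreeOf_X_self, h2] at h1
    omega

/-- The homogeneous form with a denominator. -/
theorem star_den (Q : PA) : Q ≠ 0 → ∀ P R : PA, P ^ 3 - X 0 * R ^ 3 = Q ^ 2 * (P - X 0 * R) →
    P ^ 3 = Q ^ 2 * P ∧ R ^ 3 = Q ^ 2 * R := by
  induction Q using (IsWellFounded.wf (r := DvdNotUnit (α := PA))).induction with
  | _ Q ih =>
  intro hQ P R h
  by_cases hu : IsUnit Q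
  · obtain ⟨u, hu⟩ := hu
    set q : PA := ((u⁻¹ : PAˣ) : PA) with hq
    have hqQ : q * Q = 1 := by rw [← hu, hq, Units.inv_mul]
    have h1 : (q * P) ^ 3 - q * P = X 0 * ((q * R) ^ 3 - q * R) := by
      have e1 : (q * P) ^ 3 - X 0 * (q * R) ^ 3 = q ^ 3 * (P ^ 3 - X 0 * R ^ 3) := by ring
      rw [h] at e1
      have e2 : q ^ 3 * (Q ^ 2 * (P - X 0 * R)) = (q * Q) ^ 2 * (q * P - X 0 * (q * R)) := by ring
      rw [e2, hqQ] at e1
      linear_combination e1
    obtain ⟨h2, h3⟩ := star_poly _ _ h1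
    have hc : ∀ T : PA, (q * T) ^ 3 - q * T = 0 → T ^ 3 = Q ^ 2 * T := by
      intro T hT
      have e3 : Q ^ 3 * ((q * T) ^ 3 - q * T) = (q * Q) ^ 3 * T ^ 3 - (q * Q) * (Q ^ 2 * T) := by ring
      rw [hT, hqQ, mul_zero] at e3
      linear_combination -e3
    exact ⟨hc P h2, hc R h3⟩
  · obtain ⟨l, hl, Q', rfl⟩ := WfDvdMonoid.exists_irreducible_factor hu hQ
    have hlp : Prime l := hl.prime
    have hl0 : l ≠ 0 := hlp.ne_zero
    have hQ' : Q' ≠ 0 := right_ne_zero_of_mul hQ
    have hR : l ∣ R := by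
      have h1 := congrArg (pderiv (0 : Fin 7)) h
      have three : (3 : PA) = 0 := by
        have := CharP.cast_eq_zero PA 3
        exact_mod_cast this
      have h2 : pderiv (0 : Fin 7) (P ^ 3 - X 0 * R ^ 3) = -R ^ 3 := by
        rw [map_sub, pderiv_mul, pderiv_X_self, pderiv_pow, pderiv_pow]
        simp [three]
      have h3 : l ∣ pderiv (0 : Fin 7) ((l * Q') ^ 2 * (P - X 0 * R)) := by
        have e : (l * Q') ^ 2 * (P - X 0 * R) = l * (l * (Q' ^ 2 * (P - X 0 * R))) := by ring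
        rw [e, pderiv_mul]
        exact dvd_add (Dvd.dvd.mul_left (dvd_mul_right _ _) _) (dvd_mul_right _ _)
      rw [← h1, h2, dvd_neg] at h3
      exact hlp.dvd_of_dvd_pow h3
    have hP : l ∣ P := by
      have h1 : P ^ 3 = (l * Q') ^ 2 * (P - X 0 * R) + X 0 * R ^ 3 := by
        linear_combination h
      have h2 : l ∣ P ^ 3 := by
        rw [h1]
        refine dvd_add ?_ ?_
        · have e : (l * Q') ^ 2 * (P - X 0 * R) = l * (l * (Q' ^ 2 * (P - X 0 * R))) := by ring
          rw [e]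
          exact dvd_mul_right _ _
        · exact Dvd.dvd.mul_left (dvd_pow hR (by norm_num)) _
      exact hlp.dvd_of_dvd_pow h2
    obtain ⟨P', rfl⟩ := hP
    obtain ⟨R', rfl⟩ := hR
    have h4 : P' ^ 3 - X 0 * R' ^ 3 = Q' ^ 2 * (P' - X 0 * R') := by
      have h5 : l ^ 3 * (P' ^ 3 - X 0 * R' ^ 3) = l ^ 3 * (Q' ^ 2 * (P' - X 0 * R')) := by
        linear_combination h
      exact mul_left_cancel₀ (pow_ne_zero 3 hl0) h5
    have hlt : DvdNotUnit Q' (l * Q') := ⟨hQ', l, hl.not_isUnit, by ring⟩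
    obtain ⟨h6, h7⟩ := ih Q' hlt hQ' P' R' h4
    constructor
    · linear_combination l ^ 3 * h6
    · linear_combination l ^ 3 * h7

/-- If `a^3 - a = t (b^3 - b)` then `a^3 = a` and `b^3 = b`. -/
theorem star {a b : MM} (h : a ^ 3 - a = xx 0 * (b ^ 3 - b)) : a ^ 3 = a ∧ b ^ 3 = b := by
  obtain ⟨p, q, hq, rfl⟩ := IsFractionRing.div_surjective (A := PA) a
  obtain ⟨r, s, hs, rfl⟩ := IsFractionRing.div_surjective (A := PA) b
  have hq0 : algebraMap PA MM q ≠ 0 := IsFractionRing.to_map_ne_zero_of_mem_nonZeroDivisors hq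
  have hs0 : algebraMap PA MM s ≠ 0 := IsFractionRing.to_map_ne_zero_of_mem_nonZeroDivisors hs
  have hqs : q * s ≠ 0 := mul_ne_zero (nonZeroDivisors.ne_zero hq) (nonZeroDivisors.ne_zero hs)
  have h1 : (p * s) ^ 3 - X 0 * (r * q) ^ 3 = (q * s) ^ 2 * (p * s - X 0 * (r * q)) := by
    refine IsFractionRing.injective PA MM ?_
    simp only [map_sub, map_mul, map_pow]
    rw [xx] at h
    field_simp at h
    linear_combination h
  obtain ⟨h2, h3⟩ := star_den _ hqs _ _ h1
  have h4 := congrArg (algebraMap PA MM) h2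
  have h5 := congrArg (algebraMap PA MM) h3
  simp only [map_mul, map_pow] at h4 h5
  constructor
  · field_simp
    have h6 : algebraMap PA MM s ^ 3 * (algebraMap PA MM p ^ 3) =
        algebraMap PA MM s ^ 3 * (algebraMap PA MM p * algebraMap PA MM q ^ 2) := by
      linear_combination h4
    exact mul_left_cancel₀ (pow_ne_zero 3 hs0) h6
  · field_simp
    have h6 : algebraMap PA MM q ^ 3 * (algebraMap PA MM r ^ 3) =
        algebraMap PA MM q ^ 3 * (algebraMap PA MM r * algebraMap PA MM s ^ 2) := by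
      linear_combination h5
    exact mul_left_cancel₀ (pow_ne_zero 3 hq0) h6

/-- Elements with `a^3 = a` are in the prime field. -/
theorem eq_of_cube {a : MM} (h : a ^ 3 = a) : a = 0 ∨ a = 1 ∨ a = -1 := by
  have h1 : a * ((a - 1) * (a + 1)) = 0 := by linear_combination h
  rcases mul_eq_zero.1 h1 with h2 | h2
  · exact Or.inl h2
  rcases mul_eq_zero.1 h2 with h3 | h3
  · exact Or.inr (Or.inl (sub_eq_zero.1 h3))
  · exact Or.inr (Or.inr (eq_neg_of_add_eq_zero_left h3))

end N9e
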